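import Pool.Agent.Helper12.MA.StC

/-!
# Project MA, module OTC: `Ng` gives a cut (assembly)
-/

set_option autoImplicit false

namespace Pool.Agent.Helper35.MA

open Pool.Agent.Helper12.MA
open Pool.Agent.Helper51.AJ (IsMinor Planar Apex ExMinor Con Tch)
open Pool.Agent.Helper12.NK (rst Kc add cnt Pcy IsFace Cof plus)

theorem hOTC (hSPB : StSPB) (hOTY : StOTY) (hOTS : StOTS) (hTGA : StTGA) (hPVB : StPVB) : StOTC := by
  intro V _ G z v p q r r' f1 f2 f3 f4 hC t Γ hN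
  have hP := hPVB V G z v p q r r' f1 f2 f3 f4 hC
  rcases hOTY V G z v p q r r' f1 f2 f3 f4 hC t hN.tv hN.tz hN.tp hN.tq hN.pl with ⟨h1, h2⟩ | ⟨b, X, Y, hS⟩
  · exact absurd ⟨hN.r, hN.s⟩
      (hTGA V G z v p q r r' f1 f2 f3 f4 hC t hN.tv hN.tz hN.tr hN.ts h1 h2 Γ hN.fa hN.z).1
  · rcases hOTS V G z v p q r r' f1 f2 f3 f4 hC t b X Y hS with h | h | h | h | h | h
    · exfalso
      have h5 := (hSPB V G {v, z, t, b} X Y p q hC.bh hS).2.2.2.2 h v
      exact hP.1 (h5.2 (Or.inr (by simp))).symm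
    · exfalso
      have hS' := (hSPB V G {v, z, t, b} X Y p q hC.bh hS).2.2.1
      have h5 := (hSPB V G {v, z, t, b} Y X q p hC.bh hS').2.2.2.2 h v
      exact hP.2 (h5.2 (Or.inr (by simp))).symm
    · exact ⟨b, X, Y, Or.inl h⟩
    · exact ⟨b, X, Y, Or.inr (Or.inl h)⟩
    · exact ⟨b, X, Y, Or.inr (Or.inr (Or.inl h))⟩
    · exact ⟨b, X, Y, Or.inr (Or.inr (Or.inr h))⟩

end Pool.Agent.Helper35.MA
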